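import Pool.Agent.H28.AB.Dig

/-!
# The jets of a place over the labels of one window: few bits, many bits

`rv_dead`, `rv_alive`: at three windows `b ≤ x ≤ o`, from the rate of the vector of the jets of the
orders `j, …`. `rvJ_use`: at all windows of the small boxes, the near path with the digits `dgj`, for
all orders at once, from `VrJ`.
-/

set_option autoImplicit false

namespace Pool.AB28

open Finset Real MvPolynomial
open Pool.Agent.H49.Ent Pool.Agent.H32.Dense Pool.STK Pool.KA Pool.KSAT Pool.K2S Pool.PB Pool.GEN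
open Pool.S6C Pool.RCD Pool.LA91 Pool.LP30 Pool.LPJ30 Pool.RJ28 Pool.PKG Pool.CHT
open Pool.FLN19 (AlvQ)
open Pool.RV28 (ex_sm)

variable {m : ℕ} {S : PCl m} {γ : ∀ J : ℕ, Fam m J → Type}
  {y₀ : ∀ (J : ℕ) (F : Fam m J), F.Ω → γ J F} {c : ℕ → Fin m} {d : ℕ}
  {sn : ℕ → ℝ → ℝ} {k : Fin m} {T : ℝ → ℝ} {n j : ℕ} {nH nV : ℕ → ℝ} {b x o ρ κ ρ' κ' : ℝ}

/-- A vector of jets from the first one and the others. -/
theorem jtR_cons {K : ℕ} {e : ℝ} {J : ℕ} {F : Fam m J} {A : F.Ω → Prop} {D : ℕ → ℝ} {u : F.Ω → ℤ}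
    {v : F.Ω → Fin n → ℤ} (hu : (qJet m ((range d).image c) k j b (T b) (D j)).P K e J F A u)
    (hv : (jtR m c d (fun _ : Fin n => k) (fun i => odv (j + 1) i) (fun _ w => T w) b
      (fun i => D (odv (j + 1) i))).P K e J F A v) :
    (jtR m c d (fun _ : Fin (n + 1) => k) (fun i => odv j i) (fun _ w => T w) b
      (fun i => D (odv j i))).P K e J F A (fun ω => (Fin.cons (u ω) (v ω) : Fin (n + 1) → ℤ)) := by
  intro i
  refine Fin.cases ?_ (fun i => ?_) i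
  · simp only [Fin.cons_zero]
    have e5 : odv j ((0 : Fin (n + 1)) : Fin (n + 1)) = j := by
      unfold odv
      simp
    rw [e5]
    exact hu
  · simp only [Fin.cons_succ]
    have e5 : odv j (i.succ : Fin (n + 1)) = odv (j + 1) i := by
      unfold odv
      simp only [Fin.val_succ]
      omega
    rw [e5]
    exact hv i

/-- **Dead**: the jet of the first order has at most as many bits as the vector. -/
theorem rv_dead {C₀ : ℝ} (htm : TmC S C₀)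
    (hex : ∀ (j : ℕ) (N : ℝ), Exs S (qJet m ((range d).image c) k j b (T b) N))
    (h1 : RtV S y₀ c d (fun _ : Fin (n + 1) => k) (fun i => odv j i) sn (fun _ w => T w) nH nV
      b x o ρ κ) {N g : ℝ} (hg : 0 ≤ g) (hN : N ≤ T o - j * o + g) :
    FewC S (fun J F => ptr F J) (vg x) y₀ (paQ m c d b (fun l => sn l b) nH nV)
      (qJet m ((range d).image c) k j b (T b) N) (ρ + κ + g * Real.log 2) := by
  obtain ⟨k1, hk1, e1, he1, H1⟩ := h1
  obtain ⟨M, hM⟩ := qj_dig m ((range d).image c) k j b (T b) N (T o - j * o)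
  intro h hh
  have hxr : Exs S (jtR m c d (fun _ : Fin n => k) (fun i => odv (j + 1) i) (fun _ w => T w) b
      (fun i => T o - (odv (j + 1) i : ℕ) * o)) := exs_pi fun i => hex _ _
  obtain ⟨Kr, Mr, hxr⟩ := hxr e1 he1
  obtain ⟨J₁, hJ₁⟩ := exists_nat_ge (Real.log 9 / h)
  refine ⟨e1, he1, fun K => Bas.mono (J₁ + 1) ((H1 (K + M + Kr)).and (hxr.and
    (Pool.GRW.tmc_bas htm one_pos))) ?_⟩
  rintro J hJ F A ⟨H1, ⟨v, hv, -⟩, hA, -⟩ pa u' hpa hu'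
  have hcl := isLaw_cond F.isLaw hA
  have h0 := hcl.nonneg
  have hJ0 : (0 : ℝ) ≤ J := Nat.cast_nonneg J
  have hJr : (J₁ : ℝ) ≤ J := by exact_mod_cast (by omega : J₁ ≤ J)
  have hL : Real.log 9 ≤ h * J := by
    have := hJ₁.trans hJr
    rw [div_le_iff₀ hh] at this
    linarith
  obtain ⟨u, hu, hd⟩ := hM K e1 J F A u' (by omega) hu'
  have hd1 := (hd hA g hg).1 hN
  obtain ⟨V, z, hz⟩ := Pool.V1E.mx_any (fun J F => ptr F J) (vg x) le_rfl hA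
  have key := (abs_le.1 (H1 V z (hz.le' hk1.le) (fun ω => (Fin.cons (u ω) (v ω) :
    Fin (n + 1) → ℤ)) pa
    (jtR_cons (D := fun i => T o - (i : ℕ) * o)
      ((qJet m _ _ _ _ _ _).mono (by omega) le_rfl hu)
      ((jtR m c d _ _ _ b _).mono (by omega) le_rfl hv))
    ((paQ m c d b (fun l => sn l b) nH nV).mono (by omega) le_rfl hpa))).2
  refine ⟨V, z, hz.1, ?_⟩
  have s1 : CH (Pool.Agent.H49.Ent.cond F.p A True) u (fun ω => (pa ω, (z ω, y₀ J F ω))) ≤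
      CH (Pool.Agent.H49.Ent.cond F.p A True)
        (fun ω => (Fin.cons (u ω) (v ω) : Fin (n + 1) → ℤ))
        (fun ω => (pa ω, (z ω, y₀ J F ω))) := by
    refine CH_mono_left h0 fun ω ω' _ _ hh => ?_
    have h2 := congrFun (Prod.ext_iff.mp hh).1 0
    simpa only [Fin.cons_zero] using h2
  have s2 := CH_le_add h0 u' u (fun ω => (pa ω, (z ω, y₀ J F ω)))
  have s3 : CH (Pool.Agent.H49.Ent.cond F.p A True) u' (fun ω => (u ω, (pa ω, (z ω, y₀ J F ω)))) ≤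
      CH (Pool.Agent.H49.Ent.cond F.p A True) u' u :=
    CH_mono_cond h0 fun ω ω' _ _ hh => (Prod.ext_iff.mp hh).1
  have e5 : (ρ + κ + g * Real.log 2 + h) * J =
      ρ * J + κ * J + g * J * Real.log 2 + h * J := by ring
  rw [e5]
  linarith

/-- **Alive**: the jet of the first order has at least as many bits as the vector has more than the
vector of the other ones. -/
theorem rv_alive {C₀ : ℝ} (htm : TmC S C₀)
    (hex : ∀ (j : ℕ) (N : ℝ), Exs S (qJet m ((range d).image c) k j b (T b) N))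
    (h1 : RtV S y₀ c d (fun _ : Fin (n + 1) => k) (fun i => odv j i) sn (fun _ w => T w) nH nV
      b x o ρ κ)
    (h2 : RtV S y₀ c d (fun _ : Fin n => k) (fun i => odv (j + 1) i) sn (fun _ w => T w) nH nV
      b x o ρ' κ') {N g s : ℝ} (hg : 0 ≤ g) (hN : T o - j * o ≤ N + g)
    (hs : s < ρ - κ - (ρ' + κ') - g * Real.log 2) :
    ∃ e : ℝ, 0 < e ∧ AlvQ S x y₀ (paQ m c d b (fun l => sn l b) nH nV)
      (qJet m ((range d).image c) k j b (T b) N) e s := by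
  obtain ⟨k1, hk1, e1, he1, H1⟩ := h1
  obtain ⟨k2, hk2, e2, he2, H2⟩ := h2
  obtain ⟨M, hM⟩ := qj_dig m ((range d).image c) k j b (T b) N (T o - j * o)
  obtain ⟨e₀, he₀, l1, l2⟩ : ∃ e₀ : ℝ, 0 < e₀ ∧ e₀ ≤ e1 ∧ e₀ ≤ e2 :=
    ⟨min e1 e2, by positivity, by simp, by simp⟩
  obtain ⟨h, hh⟩ : ∃ h : ℝ, h = ρ - κ - (ρ' + κ') - g * Real.log 2 - s := ⟨_, rfl⟩
  have hh0 : 0 < h := by
    rw [hh]
    linarith
  have hxr : Exs S (jtR m c d (fun _ : Fin n => k) (fun i => odv (j + 1) i) (fun _ w => T w) b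
      (fun i => T o - (odv (j + 1) i : ℕ) * o)) := exs_pi fun i => hex _ _
  obtain ⟨Kr, Mr, hxr⟩ := hxr e₀ he₀
  obtain ⟨J₁, hJ₁⟩ := exists_nat_ge (Real.log 9 / h)
  refine ⟨e₀, he₀, fun K => Bas.mono (J₁ + 1) (((H1 (K + M + Kr)).and (H2 (K + M + Kr))).and
    (hxr.and (Pool.GRW.tmc_bas htm one_pos))) ?_⟩
  rintro J hJ F A ⟨⟨H1, H2⟩, ⟨v, hv, -⟩, hA, -⟩ pa u' hpa hu' V z hz
  have hcl := isLaw_cond F.isLaw hA
  have h0 := hcl.nonneg
  have hJ0 : (0 : ℝ) ≤ J := Nat.cast_nonneg J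
  have hJr : (J₁ : ℝ) ≤ J := by exact_mod_cast (by omega : J₁ ≤ J)
  have hL : Real.log 9 ≤ h * J := by
    have := hJ₁.trans hJr
    rw [div_le_iff₀ hh0] at this
    linarith
  obtain ⟨u, hu, hd⟩ := hM K e₀ J F A u' (by omega) hu'
  have hd1 := (hd hA g hg).2 hN
  obtain ⟨V₀, z₀, hz₀⟩ := Pool.V1E.mx_any (fun J F => ptr F J) (vg x) (le_refl (0 : ℝ)) hA
  have hzz : ∀ κ₁ : ℝ, 0 ≤ κ₁ → Mx (fun J F => ptr F J) (vg x) κ₁ F A (fun ω => (z ω, z₀ ω)) := by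
    intro κ₁ hκ₁
    refine ⟨hz.join hz₀.1, fun V' z' hz' => le_trans (CH_mono_cond h0 fun ω ω' _ _ hh => ?_)
      ((hz₀.le' hκ₁).2 V' z' hz')⟩
    exact (Prod.ext_iff.mp hh).2
  have hpa' := (paQ m c d b (fun l => sn l b) nH nV).mono (K' := K + M + Kr) (by omega) le_rfl hpa
  have r1 := (abs_le.1 (H1 _ _ (hzz k1 hk1.le) (fun ω => (Fin.cons (u ω) (v ω) :
    Fin (n + 1) → ℤ)) pa
    (jtR_cons (D := fun i => T o - (i : ℕ) * o)
      ((qJet m _ _ _ _ _ _).mono (by omega) l1 hu)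
      ((jtR m c d _ _ _ b _).mono (by omega) l1 hv))
    ((paQ m c d b (fun l => sn l b) nH nV).mono le_rfl l1 hpa'))).1
  have r2 := (abs_le.1 (H2 _ _ (hzz k2 hk2.le) v pa
    ((jtR m c d (fun _ : Fin n => k) (fun i => odv (j + 1) i) (fun _ w => T w) b _).mono
      (by omega) l2 hv)
    ((paQ m c d b (fun l => sn l b) nH nV).mono le_rfl l2 hpa'))).2
  have s1 : CH (Pool.Agent.H49.Ent.cond F.p A True)
      (fun ω => (Fin.cons (u ω) (v ω) : Fin (n + 1) → ℤ))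
      (fun ω => (pa ω, ((z ω, z₀ ω), y₀ J F ω))) ≤
      CH (Pool.Agent.H49.Ent.cond F.p A True) (fun ω => (u ω, v ω))
      (fun ω => (pa ω, ((z ω, z₀ ω), y₀ J F ω))) := by
    refine CH_mono_left h0 fun ω ω' _ _ hh => ?_
    simp only [Prod.mk.injEq] at hh
    rw [hh.1.1, hh.1.2]
  have s2 := CH_subadd h0 u v (fun ω => (pa ω, ((z ω, z₀ ω), y₀ J F ω)))
  have s3 := CH_le_add h0 u u' (fun ω => (pa ω, ((z ω, z₀ ω), y₀ J F ω)))
  have s4 : CH (Pool.Agent.H49.Ent.cond F.p A True) u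
      (fun ω => (u' ω, (pa ω, ((z ω, z₀ ω), y₀ J F ω)))) ≤
      CH (Pool.Agent.H49.Ent.cond F.p A True) u u' :=
    CH_mono_cond h0 fun ω ω' _ _ hh => (Prod.ext_iff.mp hh).1
  have s5 : CH (Pool.Agent.H49.Ent.cond F.p A True) u'
      (fun ω => (pa ω, ((z ω, z₀ ω), y₀ J F ω))) ≤
      CH (Pool.Agent.H49.Ent.cond F.p A True) u' (fun ω => (pa ω, (z ω, y₀ J F ω))) := by
    refine CH_mono_cond h0 fun ω ω' _ _ hh => ?_
    simp only [Prod.mk.injEq] at hh ⊢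
    exact ⟨hh.1, hh.2.1.1, hh.2.2⟩
  have e5 : s * J = ρ * J - κ * J - (ρ' * J + κ' * J) - g * J * Real.log 2 - h * J := by
    rw [hh]
    ring
  rw [e5]
  linarith

/-- **The rates at all windows of the small boxes**, the near path with the digits `dgj`, from the
rates `RvU`. -/
theorem rvU_use {n : ℕ} {γ : ∀ J : ℕ, Fam n J → Type}
    {y₀ : ∀ (J : ℕ) (F : Fam n J), F.Ω → γ J F} {r₁ K₁ : ℕ} {S : PCl n} {c : ℕ → Fin n} {L : ℕ → ℝ → ℝ → ℝ}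
    {G : Set ℝ} {g C₀ : ℝ} {φ : ℕ → ℝ} (htm : TmC S C₀)
    (hch : ChG S c (r₁ + 1) (fun l w => L l w w) G)
    (H : ∀ j, 1 ≤ j → RvU S y₀ c r₁
      (fun _ : Fin (K₁ + 1 - j) => c r₁) (fun i => odv j i) (fun l w => L l w w)
      (fun _ w => L r₁ w w) G g (φ j)) :
    ∀ e R A D : ℝ, 0 < e → 0 < R → 0 ≤ A → 0 < D → ∃ q₁ : ℝ, 0 < q₁ ∧ ∀ q b x o : ℝ, 0 < q →
      q < q₁ → b ∈ G → g - R * q ≤ b → b ≤ x → x ≤ o → o ≤ g + R * q → o - b ≤ D * q →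
      L r₁ o o ≤ L r₁ b b + A * q → ∀ nH nV : ℕ → ℝ,
      (nH = fun l => L l b b + dgj (A * q) (D * q) r₁ l + 2 * (D * q)) →
      (nV = fun l => L l b b + dgj (A * q) (D * q) r₁ l + 2 * (D * q) - b) →
      ∀ i : ℕ, 1 ≤ i → i ≤ K₁ →
      (∀ N s : ℝ, 0 ≤ s → N ≤ L r₁ o o - i * o + s →
        FewC S (fun J F => ptr F J) (vg x) y₀
          (paQ n c r₁ b (fun l => L l b b) nH nV)
          (qJet n ((range r₁).image c) (c r₁) i b (L r₁ b b) N)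
          (φ i * (o - x) + e * q + s * Real.log 2)) ∧
      ∀ N s : ℝ, 0 ≤ s → L r₁ o o - i * o ≤ N + s → ∃ e₀ : ℝ, 0 < e₀ ∧
        AlvQ S x y₀ (paQ n c r₁ b (fun l => L l b b) nH nV)
          (qJet n ((range r₁).image c) (c r₁) i b (L r₁ b b) N) e₀
          ((φ i - φ (i + 1)) * (o - x) - e * q - s * Real.log 2) := by
  intro e R A D he hR hA hD
  obtain ⟨e', he', he1, he2⟩ : ∃ e' : ℝ, 0 < e' ∧ 3 * e' ≤ e ∧ e' ≤ D :=
    ⟨min (e / 3) D, by positivity, by linarith [min_le_left (e / 3) D], min_le_right _ _⟩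
  have heR : 0 < e' / R := by positivity
  -- one bound for all orders
  have key : ∀ N : ℕ, ∃ κ₀ : ℝ, 0 < κ₀ ∧ ∃ r₀ : ℝ, 0 < r₀ ∧ ∀ j, 1 ≤ j → j ≤ N →
      ∀ r : ℝ, 0 < r → r < r₀ →
      ∀ b ∈ G, ∀ x o : ℝ, g - r ≤ b → b ≤ x → x ≤ o → o ≤ g + r →
      ∀ nH nV lv : ℕ → ℝ, NrW (fun l w => L l w w) r₁
        (fun (_ : Fin (K₁ + 1 - j)) w => L r₁ w w) nH nV lv b o (e' / R * r) κ₀ →
      (∀ l < r₁, ∀ l' < l, 3 * (lv l + e' / R * r) ≤ lv l') →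
      RtV S y₀ c r₁ (fun _ : Fin (K₁ + 1 - j) => c r₁)
        (fun i => odv j i) (fun l w => L l w w) (fun _ w => L r₁ w w) nH nV b x o
        (φ j * (o - x)) (e' / R * r) := by
    intro N
    induction N with
    | zero => exact ⟨1, one_pos, 1, one_pos, fun j h1 h2 => absurd h1 (by omega)⟩
    | succ N ih =>
      obtain ⟨κ₁, hκ₁, r₃, hr₃, H1⟩ := ih
      obtain ⟨κ₂, hκ₂, r₂, hr₂, H2⟩ := H (N + 1) (by omega) (e' / R) heR
      refine ⟨min κ₁ κ₂, by positivity, min r₃ r₂, by positivity, fun j h1 h2 r hr hrr b hb x o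
        a1 a2 a3 a4 nH nV lv hN hgp => ?_⟩
      have hNle : ∀ κ : ℝ, min κ₁ κ₂ ≤ κ → NrW (fun l w => L l w w) r₁
          (fun (_ : Fin (K₁ + 1 - j)) w => L r₁ w w) nH nV lv b o (e' / R * r) κ := fun κ hκ =>
        { lv0 := hN.lv0
          h := hN.h
          v := hN.v
          s := hN.s
          sh := hN.sh
          sv := hN.sv
          t := hN.t
          kh := fun l hl => by linarith [hN.kh l hl]
          kv := fun l hl => by linarith [hN.kv l hl] }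
      rcases Nat.lt_or_ge N j with h3 | h3
      · obtain rfl : j = N + 1 := by omega
        exact H2 r hr (hrr.trans_le (min_le_right _ _)) b hb x o a1 a2 a3 a4 nH nV lv
          (hNle κ₂ (min_le_right _ _)) hgp
      · exact H1 j h1 h3 r hr (hrr.trans_le (min_le_left _ _)) b hb x o a1 a2 a3 a4 nH nV lv
          (hNle κ₁ (min_le_left _ _)) hgp
  obtain ⟨κ₀, hκ₀, r₀, hr₀, Hk⟩ := key (K₁ + 1)
  obtain ⟨q₂, hq₂, Q2⟩ := ex_sm hR hr₀
  obtain ⟨C, hC⟩ : ∃ C : ℝ, C = (A + 4 * D) * 4 ^ r₁ + 2 * D := ⟨_, rfl⟩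
  have hC0 : 0 < C := by
    rw [hC]
    positivity
  obtain ⟨q₃, hq₃, Q3⟩ := ex_sm hC0 hκ₀
  refine ⟨min q₂ q₃, lt_min hq₂ hq₃, fun q b x o hq hqq hb a1 a2 a3 a4 a5 a6 nH nV hnH hnV i i1
    i2 => ?_⟩
  have z2 := Q2 q hq (hqq.trans_le (min_le_left _ _))
  have z3 := Q3 q hq (hqq.trans_le (min_le_right _ _))
  have hRq : 0 < R * q := mul_pos hR hq
  have hDq : 0 < D * q := mul_pos hD hq
  have hAq : 0 ≤ A * q := mul_nonneg hA hq.le
  have eR : e' / R * (R * q) = e' * q := by field_simp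
  have heq : 0 < e' * q := mul_pos he' hq
  have he3 : 3 * e' * q ≤ e * q := mul_le_mul_of_nonneg_right he1 hq.le
  have he4 : e' * q ≤ D * q := mul_le_mul_of_nonneg_right he2 hq.le
  have hNJ : ∀ N : ℕ, NrJ (fun l w => L l w w) r₁ (fun (_ : Fin N) w => L r₁ w w)
      (fun l : Fin 0 => (l.elim0 : ℕ)) (fun l : Fin 0 => (l.elim0 : ℝ → ℝ)) nH nV
      (dgj (A * q) (D * q) r₁) (fun l => (l.elim0 : ℝ → ℝ) b - (l.elim0 : ℕ) * o) b o
      (e' / R * (R * q)) κ₀ := by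
    intro N
    rw [hnH, hnV, eR]
    refine nrJ_dgj hAq hDq (a2.trans a3) a5 he4 (fun _ => a6) ?_
    have e1 : (A * q + 4 * (D * q)) * 4 ^ r₁ + 2 * (D * q) = C * q := by
      rw [hC]
      ring
    linarith
  obtain ⟨hc1, hc2⟩ : 1 ≤ i ∧ i + 1 ≤ K₁ + 1 := ⟨i1, by omega⟩
  have v1 := Hk i i1 (by omega) (R * q) hRq z2 b hb x o a1 a2 a3 a4 nH nV _ (hNJ _).nr (hNJ 0).g
  have v2 := Hk (i + 1) (by omega) hc2 (R * q) hRq z2 b hb x o a1 a2 a3 a4 nH nV _ (hNJ _).nr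
    (hNJ 0).g
  rw [eR] at v1 v2
  obtain ⟨N₀, hN₀⟩ : ∃ N₀ : ℕ, K₁ = i + N₀ := ⟨K₁ - i, by omega⟩
  have e1 : K₁ + 1 - i = N₀ + 1 := by omega
  have e2 : K₁ + 1 - (i + 1) = N₀ := by omega
  rw [e1] at v1
  rw [e2] at v2
  obtain ⟨u₁, rd, h1, h2⟩ := hch.ch b hb
  have hex : ∀ (j : ℕ) (N : ℝ), Exs S (qJet n ((range r₁).image c) (c r₁) j b (L r₁ b b) N) :=
    fun j N => exs_jet (h1 r₁ (Nat.lt_succ_self _)) (h2.att r₁ (Nat.zero_le _)
      (Nat.lt_succ_self _))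
  refine ⟨fun N s hs hN => ?_, fun N s hs hN => ?_⟩
  · have h3 := rv_dead htm (sn := fun l w => L l w w) (T := fun w => L r₁ w w) hex v1 hs hN
    intro η hη
    obtain ⟨e₀, he₀, H4⟩ := h3 η hη
    refine ⟨e₀, he₀, fun K => Bas.mono 0 (H4 K) ?_⟩
    intro J _ F B H5 u u' hu hu'
    obtain ⟨V, z, hz, h6⟩ := H5 u u' hu hu'
    refine ⟨V, z, hz, h6.trans (mul_le_mul_of_nonneg_right ?_ (Nat.cast_nonneg J))⟩
    linarith
  · have e5 : (φ i - φ (i + 1)) * (o - x) = φ i * (o - x) - φ (i + 1) * (o - x) := by ring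
    exact rv_alive htm (sn := fun l w => L l w w) (T := fun w => L r₁ w w) hex v1 v2 hs hN
      (by rw [e5]; linarith)


/-- **The rates at all windows of the small boxes**, the near path with the digits `dgj`. -/
theorem vrJ_use {n : ℕ} {p : ℕ × ℕ} {k₀ : ℕ} {S : PCl n} {P : List (Fin n) × Fin n → ℝ → ℝ → ℝ}
    {θ : ℝ} {c : ℕ → Fin n} {Pt : ℝ → ℝ → ℝ} {rr : ℝ → ℝ} {L T : ℕ → ℝ → ℝ → ℝ} {κ : ℕ → Kg}
    {G : Set ℝ} {g Sr C₀ : ℝ} (h : VrJ p k₀ S P θ c Pt rr L T κ G g) (htm : TmC S C₀)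
    (hp : p.1 + 1 < n) (hκ : ∀ l < p.1, κ l = .one)
    (hd : HasDerivAt (fun a => L p.1 a a) Sr g) (hk : (p.2 : ℝ) < Sr) :
    ∃ φ : ℕ → ℝ, (∀ j, 0 ≤ φ j) ∧ (∀ j, 1 ≤ j → φ (j + 1) ≤ φ j) ∧ (∀ j, p.2 < j → φ j = 0) ∧
    ∀ e R A D : ℝ, 0 < e → 0 < R → 0 ≤ A → 0 < D → ∃ q₁ : ℝ, 0 < q₁ ∧ ∀ q b x o : ℝ, 0 < q →
      q < q₁ → b ∈ G → g - R * q ≤ b → b ≤ x → x ≤ o → o ≤ g + R * q → o - b ≤ D * q →
      L p.1 o o ≤ L p.1 b b + A * q → ∀ nH nV : ℕ → ℝ,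
      (nH = fun l => L l b b + dgj (A * q) (D * q) p.1 l + 2 * (D * q)) →
      (nV = fun l => L l b b + dgj (A * q) (D * q) p.1 l + 2 * (D * q) - b) →
      ∀ i : ℕ, 1 ≤ i → i ≤ p.2 →
      (∀ N s : ℝ, 0 ≤ s → N ≤ L p.1 o o - i * o + s →
        FewC S (fun J F => ptr F J) (vg x) (fun _ F => F.T)
          (paQ n c p.1 b (fun l => L l b b) nH nV)
          (qJet n ((range p.1).image c) (c p.1) i b (L p.1 b b) N)
          (φ i * (o - x) + e * q + s * Real.log 2)) ∧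
      ∀ N s : ℝ, 0 ≤ s → L p.1 o o - i * o ≤ N + s → ∃ e₀ : ℝ, 0 < e₀ ∧
        AlvQ S x (fun _ F => F.T) (paQ n c p.1 b (fun l => L l b b) nH nV)
          (qJet n ((range p.1).image c) (c p.1) i b (L p.1 b b) N) e₀
          ((φ i - φ (i + 1)) * (o - x) - e * q - s * Real.log 2) := by
  obtain ⟨φ, hφ, hm, h0, H⟩ := h.rt hp hκ Sr hd hk
  exact ⟨φ, hφ, hm, h0, rvU_use htm (h.ch (p.1 + 1) hp) H⟩

end Pool.AB28
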