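import Pool.Agent.H62.AB.Bxd

/-!
# The order of the slope, one tie

`top_dead'`: `top_dead` for the facts `BoxN` of a sub-box, the ties only for one number `alm` which is
known before the box.
-/

set_option autoImplicit false

namespace Pool.AB63

open Finset Real MvPolynomial
open Pool.Agent.H49.Ent Pool.Agent.H32.Dense Pool.STK Pool.KA Pool.KSAT Pool.K2S Pool.PB Pool.GEN
open Pool.S6C Pool.RCD Pool.LA91 Pool.OWN68 Pool.AJW Pool.AJX Pool.CHT Pool.PN18 Pool.LPK12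
open Pool.TE46 Pool.AB91
open Pool.AB62 (BoxN)

/-- **The order of the slope is dead**: the jets of both places have few bits; the ties only for one
number `alm`, which is known before the box. -/
theorem top_dead' {K kt m0 E M0 : ℕ} {a CF εt εh : ℝ} {dt dh : ℝ → ℝ} (ha : a = (kt : ℝ) + 1)
    (hkK : kt + 1 ≤ K + 2) (hE : 1 ≤ E) (hCF : 0 < CF) (hεt : 0 < εt) (hεt1 : εt ≤ 1)
    (hεh1 : εh ≤ 1) (hM0 : CF + 1 ≤ M0)
    (hm : a * (m0 + 1) ≤ εh * (εt * CF)) (hdt : ∀ al : ℝ, 0 < al → 0 < dt al)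
    (hdh : ∀ al : ℝ, 0 < al → 0 < dh al) (T : ℝ) (hT : 0 < T) :
    ∃ alm : ℝ, 0 < alm ∧ ∃ tol : ℝ, 0 < tol ∧
    ∀ {m : ℕ} {S : PCl m} {c : ℕ → Fin m} {r : ℕ} {b : ℝ} {sn : ℕ → ℝ → ℝ} {γ s : ℝ}
    {U : Type} {Qp : Qt m U} {x : ℕ → ℝ} {N : ℕ} {u η : ℝ} {θ : ℕ → ℕ → ℕ → ℝ} {φ : ℕ → ℝ},
    BoxN E CF εt εh S c r K kt a b sn γ s Qp x N u η θ φ → 0 ≤ η → η ≤ tol →
    (∀ n, M0 * E ≤ n → n ≤ N → TieB S c r K a b sn γ s Qp (kt + 1) (x (n - M0 * E)) (x n)
      (a * (CF * (E * u) / a)) εt (CF * (E * u) / a) alm (dt alm)) →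
    (∀ n, M0 * E ≤ n → n ≤ N → ∀ al : ℝ, 0 < al → HopB S c r K a b sn γ s Qp (kt + 1)
      (x (n - M0 * E)) (x n) (a * (εt * (CF * (E * u)) / a)) εh (εt * (CF * (E * u)) / a) al
      (dh al)) →
    ∀ n, M0 * E ≤ n → n ≤ N →
      Fcx S (x n) Qp (qu m c r b sn (kt + 1) ((a - (kt + 1 : ℕ)) * (x n - b) +
        a * (m0 + 1) * (E * u) + s)) (T * u) ∧
      Fcx S (x n) Qp (qn m c r b sn γ (kt + 1) ((a - (kt + 1 : ℕ)) * (x n - b) +
        a * (m0 + 1) * (E * u))) (T * u) := by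
  have hk0 : (0 : ℝ) ≤ kt := Nat.cast_nonneg _
  have ha0 : 0 < a := by linarith
  have hE1 : (1 : ℝ) ≤ E := by exact_mod_cast hE
  obtain ⟨QF, hQF⟩ : ∃ QF, QF = CF * E / a := ⟨_, rfl⟩
  have hQF0 : 0 < QF := by
    rw [hQF]
    positivity
  obtain ⟨QS, hQS⟩ : ∃ QS, QS = εt * QF := ⟨_, rfl⟩
  have hQS0 : 0 < QS := by
    rw [hQS]
    positivity
  obtain ⟨al₂, hal₂⟩ : ∃ al₂, al₂ = T / (4 * QS) := ⟨_, rfl⟩
  have hal₂0 : 0 < al₂ := by
    rw [hal₂]
    positivity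
  have halQ₂ : al₂ * QS = T / 4 := by
    rw [hal₂]
    field_simp
  have hd₂ := hdh al₂ hal₂0
  obtain ⟨δ₂, hδ₂⟩ : ∃ δ₂, δ₂ = dh al₂ := ⟨_, rfl⟩
  rw [← hδ₂] at hd₂
  obtain ⟨T', hT'0, hT'1, hT'2⟩ : ∃ T' : ℝ, 0 < T' ∧ T' ≤ T / 4 ∧ T' ≤ δ₂ * QS / 32 :=
    ⟨min (T / 4) (δ₂ * QS / 32), by positivity, min_le_left _ _, min_le_right _ _⟩
  obtain ⟨al₁, hal₁⟩ : ∃ al₁, al₁ = T' / (2 * QF) := ⟨_, rfl⟩
  have hal₁0 : 0 < al₁ := by
    rw [hal₁]
    positivity
  have halQ₁ : al₁ * QF = T' / 2 := by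
    rw [hal₁]
    field_simp
  have hd₁ := hdt al₁ hal₁0
  obtain ⟨δ₁, hδ₁⟩ : ∃ δ₁, δ₁ = dt al₁ := ⟨_, rfl⟩
  rw [← hδ₁] at hd₁
  refine ⟨al₁, hal₁0, min (T' / 4) (min (δ₁ * QF / 32) (min (δ₂ * QS / 32) 1)), by positivity, ?_⟩
  intro m S c r b sn γ s U Qp x N u η θ φ B hη0 hη hTie hHop n hn hnN
  have g1 : η ≤ T' / 4 := hη.trans (min_le_left _ _)
  have g2 : η ≤ δ₁ * QF / 32 := hη.trans ((min_le_right _ _).trans (min_le_left _ _))
  have g3 : η ≤ δ₂ * QS / 32 := hη.trans ((min_le_right _ _).trans ((min_le_right _ _).trans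
    (min_le_left _ _)))
  have g4 : η ≤ 1 := hη.trans ((min_le_right _ _).trans ((min_le_right _ _).trans
    (min_le_right _ _)))
  obtain ⟨C₀, htm⟩ := B.tm
  have hu0 := B.u0
  have hηu : 0 ≤ η * u := by positivity
  have hEu : u ≤ E * u := le_mul_of_one_le_left hu0.le hE1
  have hEu0 : 0 < (E : ℝ) * u := by positivity
  have ea : a - (kt + 1 : ℕ) = 0 := by
    rw [ha]
    push_cast
    ring
  -- the digits
  obtain ⟨D, hDe⟩ : ∃ D, D = CF * (E * u) := ⟨_, rfl⟩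
  have hD0 : 0 < D := by
    rw [hDe]
    positivity
  have hDa : D / a = QF * u := by
    rw [hDe, hQF]
    ring
  have hSa : εt * D / a = QS * u := by
    rw [hQS, mul_assoc, ← hDa, mul_div_assoc]
  have haD : a * (QF * u) = D := by
    rw [← hDa]
    field_simp
  have haS : a * (QS * u) = εt * D := by
    rw [← hSa]
    field_simp
  have hSD : εt * D ≤ D := mul_le_of_le_one_left hD0.le hεt1
  have hS0 : 0 < εt * D := by positivity
  have h2S : εh * (εt * D) ≤ εt * D := mul_le_of_le_one_left hS0.le hεh1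
  have hsη : s ≤ E * u := B.s1.trans ((mul_le_of_le_one_left hu0.le g4).trans hEu)
  have hDM : D + s ≤ ((M0 * E : ℕ) : ℝ) * u := by
    have h1 : (CF + 1) * (E * u) ≤ M0 * (E * u) := mul_le_mul_of_nonneg_right hM0 hEu0.le
    have h2 : ((M0 * E : ℕ) : ℝ) * u = M0 * (E * u) := by
      push_cast
      ring
    rw [h2, hDe]
    linarith
  have hdp : D + s ≤ x 0 - b := by
    rw [hDe]
    exact B.dp
  have hnat : a * (m0 + 1) * (E * u) ≤ εh * (εt * D) := by
    have h1 := mul_le_mul_of_nonneg_right hm hEu0.le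
    have h2 : εh * (εt * D) = εh * (εt * CF) * (E * u) := by
      rw [hDe]
      ring
    rw [h2]
    exact h1
  -- the small numbers
  have r1 : η * u ≤ T' / 4 * u := mul_le_mul_of_nonneg_right g1 hu0.le
  have r2 : η * u ≤ δ₁ * (QF * u) / 32 := by
    have h1 := mul_le_mul_of_nonneg_right g2 hu0.le
    have h2 : δ₁ * QF / 32 * u = δ₁ * (QF * u) / 32 := by ring
    linarith
  have r3 : η * u ≤ δ₂ * (QS * u) / 32 := by
    have h1 := mul_le_mul_of_nonneg_right g3 hu0.le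
    have h2 : δ₂ * QS / 32 * u = δ₂ * (QS * u) / 32 := by ring
    linarith
  have p1 : 0 < δ₁ * (QF * u) := by positivity
  have p2 : 0 < δ₂ * (QS * u) := by positivity
  have hT'u : 0 < T' * u := by positivity
  have q1 : T' * u ≤ T / 4 * u := mul_le_mul_of_nonneg_right hT'1 hu0.le
  have q2 : T' * u ≤ δ₂ * (QS * u) / 32 := by
    have h1 := mul_le_mul_of_nonneg_right hT'2 hu0.le
    have h2 : δ₂ * QS / 32 * u = δ₂ * (QS * u) / 32 := by ring
    linarith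
  -- the place `c r`
  obtain ⟨ψ₁, f1, a1⟩ := B.n1 n hnN
  rw [← hDe] at f1 a1
  have hψ₁ : ψ₁ < T' * u := by
    by_contra hcon
    rw [not_lt] at hcon
    have hB := hTie n hn hnN
    rw [← hDe, hDa, ← hδ₁] at hB
    obtain ⟨c1, c2, c3, c4⟩ := top_fc B.toBoxD ha (δ := δ₁ * (QF * u) / 8) hD0.le hDM hdp
      (le_of_eq haD) hn hnN (by linarith) hη0
    obtain ⟨d1, d2⟩ := top_nat B.toBoxD ha hkK hnN (y := x n - b) (δ := δ₁ * (QF * u) / 8)
      (by linarith) hη0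
    refine hB (fun l hl hlj => (c1 l hl hlj).mono (by linarith)) (d1.mono (by linarith))
      (fun l hl hlj => (c2 l hl hlj).mono (by linarith)) (d2.mono (by linarith))
      (fun l hl hlK => c3 l hl hlK) (fun l hl hlK => c4 l hl hlK) ?_ ?_
    · have h1 := B.ipF (n - M0 * E) n (Nat.sub_le _ _) hnN
      rw [← hDe] at h1
      rw [ea, zero_mul, zero_add, haD]
      exact h1.mono (by linarith)
    · rw [ea, zero_mul, zero_add, haD, add_comm s]
      refine a1.mono ?_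
      have h1 : al₁ * (QF * u) = T' / 2 * u := by
        rw [← mul_assoc, halQ₁]
      rw [h1]
      linarith
  -- both places
  obtain ⟨ψ₂, f2, a2⟩ := B.n2 n hnN
  rw [← hDe] at f2 a2
  have hψ₂ : ψ₂ < T * u := by
    by_contra hcon
    rw [not_lt] at hcon
    have hB := hHop n hn hnN al₂ hal₂0
    rw [← hDe, hSa, ← hδ₂] at hB
    obtain ⟨c1, c2, -, c4⟩ := top_fc B.toBoxD ha (δ := δ₂ * (QS * u) / 8) hD0.le hDM hdp
      (Bv := a * (QS * u)) (by rw [haS]; exact hSD) hn hnN (by linarith) hη0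
    obtain ⟨-, d2⟩ := top_nat B.toBoxD ha hkK hnN (y := x n - b) (δ := δ₂ * (QS * u) / 8)
      (by linarith) hη0
    obtain ⟨d3, -⟩ := top_nat B.toBoxD ha hkK (n := n - M0 * E) ((Nat.sub_le _ _).trans hnN)
      (y := x n - b) (δ := δ₂ * (QS * u) / 8) (by linarith) hη0
    have k1 : F1x S (x n) Qp (qu m c r b sn (kt + 1) ((a - (kt + 1 : ℕ)) * (x n - b) +
        a * (QS * u) + s)) (δ₂ * (QS * u) / 8) := by
      rw [ea, zero_mul, zero_add, haS]
      exact f1.x (by linarith)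
    refine hB (fun l hl => ?_) (fun l hl hlj => (c2 l hl hlj).mono (by linarith))
      (d2.mono (by linarith)) (fun l hl hlK => c4 l hl hlK) ?_ k1 d3 ?_
    · by_cases hlj : l = kt + 1
      · subst hlj
        rw [ea, zero_mul, zero_mul, zero_add, zero_add, haS]
        exact f1.x (by linarith)
      · exact (c1 l hl hlj).mono (by linarith)
    · have h1 := B.ipS (n - M0 * E) n (Nat.sub_le _ _) hnN
      rw [← hDe] at h1
      rw [ea, zero_mul, zero_add, haS]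
      exact h1.mono (by linarith)
    · rw [ea, zero_mul, zero_add, haS]
      have h1 : F1x S (x n) Qp (qu m c r b sn (kt + 1) (εh * (εt * D) + s)) (T' * u) :=
        (f1.dg htm (g' := 0) (c' := ψ₁) (by linarith) le_rfl (by linarith) :
          Fcx S (x n) Qp (qu m c r b sn (kt + 1) (εh * (εt * D) + s)) ψ₁).x hψ₁
      refine (a2.snd htm h1 (B.exu _ hkK _)).mono ?_
      have h2 : al₂ * (QS * u) = T / 4 * u := by
        rw [← mul_assoc, halQ₂]
      rw [h2]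
      have h3 : 0 < T * u := by positivity
      linarith
  rw [ea, zero_mul, zero_add]
  refine ⟨?_, ?_⟩
  · exact f1.dg htm (g' := 0) (by linarith) le_rfl (by linarith)
  · have h1 : Fcx S (x n) Qp (qn m c r b sn γ (kt + 1) (εh * (εt * D))) ψ₂ :=
      fewC_snd (S := S) (f := fun J F => ptr F J) (g := vg (x n)) (y := fun _ F => F.T) htm f2
        (B.exu _ hkK _)
    exact h1.dg htm (g' := 0) (by linarith) le_rfl (by linarith)

end Pool.AB63
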