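import Pool.Agent.H28.TWO.Tfm
import Pool.Agent.H28.RJ.Top

/-!
# Other digits of the same label

`qj_dig`: with a jet over a label to `N` digits also the jet over the same label to `N'` digits is a
natural quantity; the two are few bits of each other up to the difference of the digits.
-/

set_option autoImplicit false

namespace Pool.AB28

open Finset Real MvPolynomial
open Pool.Agent.H49.Ent Pool.Agent.H32.Dense Pool.STK Pool.KA Pool.KSAT Pool.K2S Pool.PB Pool.GEN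
open Pool.S6C Pool.RCD Pool.LA91
open Pool.TWO28 (ch_dig)

/-- The count with other digits. -/
theorem cnt_dig {Ω : Type} [Fintype Ω] {p : Ω → ℝ} (x : Ω → ℝ) {A : Ω → Prop} {a b : ℝ}
    (ha : 0 < a) {u v : Ω → ℤ} (hu : ∀ ω, A ω → u ω = ⌊b * x ω⌋)
    (hv : ∀ ω, A ω → v ω = ⌊a * (b * x ω)⌋) :
    (cnt p v A : ℝ) ≤ cnt p u A * (a + 3) := by
  classical
  obtain ⟨I, hI⟩ : ∃ I : ℤ → Finset ℤ, I = fun k : ℤ => Finset.Icc ⌊a * (k : ℝ)⌋ ⌊a * ((k : ℝ) + 1)⌋ :=
    ⟨_, rfl⟩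
  have h1 : cset p v A ⊆ (cset p u A).biUnion I := by
    intro y hy
    obtain ⟨ω, h2, h3, rfl⟩ := of_mem_cset hy
    rw [Finset.mem_biUnion]
    refine ⟨u ω, mem_cset u h2 h3, ?_⟩
    rw [hI, Finset.mem_Icc, hv ω h3, hu ω h3]
    have e1 := Int.floor_le (b * x ω)
    have e2 := (Int.lt_floor_add_one (b * x ω)).le
    exact ⟨Int.floor_le_floor (mul_le_mul_of_nonneg_left e1 ha.le),
      Int.floor_le_floor (mul_le_mul_of_nonneg_left e2 ha.le)⟩
  have h2 : ∀ k : ℤ, ((I k).card : ℝ) ≤ a + 3 := by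
    intro k
    rw [hI]
    dsimp only
    rw [Int.card_Icc]
    have e1 := Int.floor_le (a * ((k : ℝ) + 1))
    have e2 := Int.lt_floor_add_one (a * (k : ℝ))
    have e3 : ⌊a * (k : ℝ)⌋ ≤ ⌊a * ((k : ℝ) + 1)⌋ :=
      Int.floor_le_floor (mul_le_mul_of_nonneg_left (by linarith) ha.le)
    have e4 : (((⌊a * ((k : ℝ) + 1)⌋ + 1 - ⌊a * (k : ℝ)⌋).toNat : ℕ) : ℝ) =
        ((⌊a * ((k : ℝ) + 1)⌋ + 1 - ⌊a * (k : ℝ)⌋ : ℤ) : ℝ) := by
      have h5 : 0 ≤ ⌊a * ((k : ℝ) + 1)⌋ + 1 - ⌊a * (k : ℝ)⌋ := by omega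
      exact_mod_cast Int.toNat_of_nonneg h5
    rw [e4]
    push_cast
    have e5 : a * ((k : ℝ) + 1) = a * k + a := by ring
    linarith
  have h3 : (cnt p v A : ℝ) ≤ ∑ k ∈ cset p u A, ((I k).card : ℝ) := by
    rw [← cset_card]
    have h4 := (Finset.card_le_card h1).trans Finset.card_biUnion_le
    exact_mod_cast h4
  refine h3.trans ((Finset.sum_le_card_nsmul _ _ (a + 3) fun k _ => h2 k).trans (le_of_eq ?_))
  rw [nsmul_eq_mul, cset_card]

/-- **Other digits of the same label.** -/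
theorem qj_dig (m : ℕ) (I : Finset (Fin m)) (k : Fin m) (j : ℕ) (w p N N' : ℝ) : ∃ M : ℕ,
    ∀ (K : ℕ) (e : ℝ) (J : ℕ) (F : Fam m J) (A : F.Ω → Prop) (u : F.Ω → ℤ), 1 ≤ J →
      (qJet m I k j w p N).P K e J F A u → ∃ u' : F.Ω → ℤ,
        (qJet m I k j w p N').P (K + M) e J F A u' ∧ (0 < Pe F.p A → ∀ γ : ℝ, 0 ≤ γ →
        (N ≤ N' + γ → CH (Pool.Agent.H49.Ent.cond F.p A True) u u' ≤
          γ * J * Real.log 2 + Real.log 9) ∧
        (N' ≤ N + γ → CH (Pool.Agent.H49.Ent.cond F.p A True) u' u ≤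
          γ * J * Real.log 2 + Real.log 9)) := by
  obtain ⟨M, hM⟩ := exists_nat_ge (|N' - N| + 2)
  refine ⟨M, fun K e J F A u hJ hu => ?_⟩
  obtain ⟨hc, V, z, z', G, hl, hω⟩ := hu
  obtain ⟨x, hx⟩ : ∃ x : F.Ω → ℝ, x = fun ω => ojet F k j (G (z' (slam F ⌊w * J⌋₊ ω))) ω :=
    ⟨_, rfl⟩
  have hJ0 : (0 : ℝ) ≤ J := Nat.cast_nonneg J
  have hJ1 : (1 : ℝ) ≤ J := by exact_mod_cast hJ
  have hl2 : Real.log 2 ≤ 1 := by
    have := Real.log_two_lt_d9
    linarith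
  have hl0 : 0 < Real.log 2 := Real.log_pos one_lt_two
  have hu : ∀ ω, A ω → u ω = ⌊(2 : ℝ) ^ (N * J) * x ω⌋ := by
    intro ω h
    rw [hx]
    exact hω ω h
  refine ⟨fun ω => ⌊(2 : ℝ) ^ (N' * J) * x ω⌋, ⟨?_, V, z, z', G,
    hl.mono (Finset.Subset.refl _) (by omega) le_rfl, fun ω _ => by rw [hx]⟩, fun hA γ hγ => ?_⟩
  · have h1 := cnt_dig (p := F.p) x (A := A) (a := (2 : ℝ) ^ ((N' - N) * J))
      (b := (2 : ℝ) ^ (N * J)) (u := u) (v := fun ω => ⌊(2 : ℝ) ^ (N' * J) * x ω⌋) (by positivity)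
      hu (fun ω _ => by
        rw [← mul_assoc, ← Real.rpow_add two_pos]
        ring_nf)
    refine h1.trans ?_
    have h2 : (2 : ℝ) ^ ((N' - N) * J) ≤ Real.exp (|N' - N| * J) := by
      rw [← exp_p2]
      refine Real.exp_le_exp.2 ?_
      have e1 : (N' - N) * J ≤ |N' - N| * J := mul_le_mul_of_nonneg_right (le_abs_self _) hJ0
      have e2 : 0 ≤ |N' - N| * J := mul_nonneg (abs_nonneg _) hJ0
      have e3 : (N' - N) * J * Real.log 2 ≤ |N' - N| * J * Real.log 2 :=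
        mul_le_mul_of_nonneg_right e1 hl0.le
      have e4 : |N' - N| * J * Real.log 2 ≤ |N' - N| * J * 1 := mul_le_mul_of_nonneg_left hl2 e2
      linarith
    have h3 : (1 : ℝ) ≤ Real.exp (|N' - N| * J) :=
      Real.one_le_exp (mul_nonneg (abs_nonneg _) hJ0)
    have h4 : (4 : ℝ) ≤ Real.exp (2 * J) := by
      have e1 : (2.7 : ℝ) < Real.exp 1 := by
        have := Real.exp_one_gt_d9
        linarith
      have e2 : Real.exp 1 * Real.exp 1 = Real.exp 2 := by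
        rw [← Real.exp_add]
        norm_num
      have e3 : Real.exp 2 ≤ Real.exp (2 * J) := Real.exp_le_exp.2 (by linarith)
      nlinarith
    have h5 : (2 : ℝ) ^ ((N' - N) * J) + 3 ≤ Real.exp (M * J) := by
      have e1 : (2 : ℝ) ^ ((N' - N) * J) + 3 ≤ Real.exp (|N' - N| * J) * Real.exp (2 * J) := by
        have e2 : Real.exp (|N' - N| * J) * 4 ≤ Real.exp (|N' - N| * J) * Real.exp (2 * J) :=
          mul_le_mul_of_nonneg_left h4 (by positivity)
        linarith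
      refine e1.trans ?_
      rw [← Real.exp_add]
      refine Real.exp_le_exp.2 ?_
      have := mul_le_mul_of_nonneg_right hM hJ0
      linarith
    have h6 : ((K + M : ℕ) : ℝ) * J = K * J + M * J := by
      push_cast
      ring
    rw [h6, Real.exp_add]
    exact mul_le_mul hc h5 (by positivity) (by positivity)
  · have hcl := isLaw_cond F.isLaw hA
    have h0 := hcl.nonneg
    have hq : ∀ ω, 0 < Pool.Agent.H49.Ent.cond F.p A True ω → u ω = ⌊(2 : ℝ) ^ (N * J) * x ω⌋ :=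
      fun ω hω => hu ω (of_cond_pos hω)
    refine ⟨fun h => ?_, fun h => ?_⟩
    · refine le_trans ?_ (ch_dig hcl x (n := N) (n' := N') (J := J) h hγ)
      refine CH_mono_left h0 fun ω ω' p1 p2 hh => ?_
      rw [hq ω p1, hq ω' p2]
      exact (Prod.ext_iff.mp hh).1
    · refine le_trans ?_ (ch_dig hcl x (n := N') (n' := N) (J := J) h hγ)
      refine CH_mono_cond h0 fun ω ω' p1 p2 hh => ?_
      rw [hq ω p1, hq ω' p2] at hh
      exact hh

end Pool.AB28
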