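import Pool.Agent.H91.AB.Shf

/-!
# The order of the slope

Integer slope `a = kt + 1`. `BoxA`: the facts about the jets of the order `a` beyond the natural digits
at the windows of a sub-box: no look-ahead, numbers, ties, hops. `top_dead`: the jets of both places of
the order `a` have few bits. `BoxA.toH`: hence `BoxH` at the later windows. `boxH_of_lt`: `BoxH` if the
slope is smaller than `kt + 1`.
-/

set_option autoImplicit false

namespace Pool.AB63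

open Finset Real MvPolynomial
open Pool.Agent.H49.Ent Pool.Agent.H32.Dense Pool.STK Pool.KA Pool.KSAT Pool.K2S Pool.PB Pool.GEN
open Pool.S6C Pool.RCD Pool.LA91 Pool.OWN68 Pool.AJW Pool.AJX Pool.CHT Pool.PN18 Pool.LPK12
open Pool.TE46 Pool.AB91

/-- **The order** `kt + 1` at the windows of a sub-box: to `D := CF E u` and `εt D` digits behind the
natural ones no look-ahead, the numbers of the jets of the place `c r` to `εt D` and of the pair to
`εh εt D` digits, the ties and the hops. -/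
structure BoxA (E M0 : ℕ) (CF εt εh : ℝ) (dt dh : ℝ → ℝ) {m : ℕ} (S : PCl m) (c : ℕ → Fin m)
    (r K kt : ℕ) (a b : ℝ) (sn : ℕ → ℝ → ℝ) (γ s : ℝ) {U : Type} (Qp : Qt m U) (x : ℕ → ℝ) (N : ℕ)
    (u η : ℝ) (θ : ℕ → ℕ → ℕ → ℝ) (φ : ℕ → ℝ) : Prop
    extends BoxD S c r K kt a b sn γ s Qp x N u η θ φ where
  dp : CF * (E * u) + s ≤ x 0 - b
  ipF : ∀ i j, i ≤ j → j ≤ N → Ipx S (x i) (x j) Qp (xg m c r b sn γ s (kt + 1) (CF * (E * u)))
    (xg m c r b sn γ s (kt + 1) 0) (η * u)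
  ipS : ∀ i j, i ≤ j → j ≤ N → Ipx S (x i) (x j) Qp
    (xg m c r b sn γ s (kt + 1) (εt * (CF * (E * u)))) (xg m c r b sn γ s (kt + 1) 0) (η * u)
  n1 : ∀ i ≤ N, ∃ ψ : ℝ, Fcx S (x i) Qp (qu m c r b sn (kt + 1) (εt * (CF * (E * u)) + s)) ψ ∧
    Alx S (x i) Qp (qu m c r b sn (kt + 1) (εt * (CF * (E * u)) + s)) (ψ - η * u)
  n2 : ∀ i ≤ N, ∃ ψ : ℝ,
    Fcx S (x i) Qp (xg m c r b sn γ s (kt + 1) (εh * (εt * (CF * (E * u))))) ψ ∧
    Alx S (x i) Qp (xg m c r b sn γ s (kt + 1) (εh * (εt * (CF * (E * u))))) (ψ - η * u)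
  tie : ∀ n, M0 * E ≤ n → n ≤ N → ∀ al : ℝ, 0 < al → TieB S c r K a b sn γ s Qp (kt + 1)
    (x (n - M0 * E)) (x n) (a * (CF * (E * u) / a)) εt (CF * (E * u) / a) al (dt al)
  hop : ∀ n, M0 * E ≤ n → n ≤ N → ∀ al : ℝ, 0 < al → HopB S c r K a b sn γ s Qp (kt + 1)
    (x (n - M0 * E)) (x n) (a * (εt * (CF * (E * u)) / a)) εh (εt * (CF * (E * u)) / a) al (dh al)

section

variable {m : ℕ} {S : PCl m} {c : ℕ → Fin m} {r K kt : ℕ} {a b : ℝ} {sn : ℕ → ℝ → ℝ} {γ s : ℝ}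
  {U : Type} {Qp : Qt m U} {x : ℕ → ℝ} {N : ℕ} {u η : ℝ} {θ : ℕ → ℕ → ℕ → ℝ} {φ : ℕ → ℝ}

/-- Alive to fewer digits: a weaker hop. -/
theorem HopB.eps {C₀ : ℝ} (htm : TmC S C₀) {j : ℕ} {w t B ε ε' q al al' δ₁ : ℝ} (hB : 0 ≤ B)
    (hε : ε' ≤ ε) (hal : al * q < al' * q) (h : HopB S c r K a b sn γ s Qp j w t B ε q al δ₁) :
    HopB S c r K a b sn γ s Qp j w t B ε' q al' δ₁ :=
  fun h1 h2 h3 h4 h5 h6 h7 h8 => h h1 h2 h3 h4 h5 h6 h7 (h8.dg htm
    (by linarith [mul_le_mul_of_nonneg_right hε hB]) hal)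

/-- Alive to fewer digits: a weaker tie. -/
theorem TieB.eps {C₀ : ℝ} (htm : TmC S C₀) {i : ℕ} {w t B ε ε' q al al' δ₁ : ℝ} (hB : 0 ≤ B)
    (hε : ε' ≤ ε) (hal : al * q < al' * q) (h : TieB S c r K a b sn γ s Qp i w t B ε q al δ₁) :
    TieB S c r K a b sn γ s Qp i w t B ε' q al' δ₁ :=
  fun h1 h2 h3 h4 h5 h6 h7 h8 => h h1 h2 h3 h4 h5 h6 h7 (h8.dg htm
    (by linarith [mul_le_mul_of_nonneg_right hε hB]) hal)

/-- Larger errors. -/
theorem BoxD.le (B : BoxD S c r K kt a b sn γ s Qp x N u η θ φ) {η' : ℝ} (hη : η ≤ η') :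
    BoxD S c r K kt a b sn γ s Qp x N u η' θ φ := by
  have hu0 := B.u0
  have h1 : η * u ≤ η' * u := mul_le_mul_of_nonneg_right hη hu0.le
  exact
    { tm := B.tm
      u0 := B.u0
      s0 := B.s0
      s1 := B.s1.trans h1
      xs := B.xs
      x1 := B.x1
      exu := B.exu
      exn := B.exn
      nu := fun n hn l hl D hD => (B.nu n hn l hl D hD).mono h1
      nn := fun n hn l hl D hD => (B.nn n hn l hl D hD).mono h1
      zu := fun n hn l hl D hD => (B.zu n hn l hl D hD).mono h1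
      zn := fun n hn l hl D hD => (B.zn n hn l hl D hD).mono h1
      rf := B.rf
      ra := fun l h2 h3 i j h4 h5 => (B.ra l h2 h3 i j h4 h5).mono (by linarith)
      ad := fun l h2 h3 i j k h4 h5 h6 => (B.ad l h2 h3 i j k h4 h5 h6).trans (by linarith)
      ip := fun l h2 h3 i j k h4 h5 h6 => (B.ip l h2 h3 i j k h4 h5 h6).mono h1
      vf := fun l h2 h3 i j h4 h5 => (B.vf l h2 h3 i j h4 h5).mono (by linarith)
      va := fun l h2 h3 i j h4 h5 => (B.va l h2 h3 i j h4 h5).mono (by linarith) }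

/-- **The other orders at a step of the order** `kt + 1 = a`. -/
theorem top_fc (B : BoxD S c r K kt a b sn γ s Qp x N u η θ φ) (ha : a = (kt : ℝ) + 1)
    {M n : ℕ} {D Bv δ : ℝ} (hD0 : 0 ≤ D) (hD : D + s ≤ M * u) (hdp : D + s ≤ x 0 - b) (hBv : Bv ≤ D)
    (hn : M ≤ n) (hnN : n ≤ N) (hδ : 2 * (η * u) < δ) (hη : 0 ≤ η) :
    (∀ l ≤ K + 2, l ≠ kt + 1 → F1x S (x n) Qp (qu m c r b sn l ((a - l) * (x (n - M) - b) +
      (a - (kt + 1 : ℕ)) * (x n - x (n - M)) + Bv + s)) δ) ∧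
    (∀ l ≤ K + 2, l ≠ kt + 1 → F1x S (x n) Qp (qn m c r b sn γ l ((a - l) * (x (n - M) - b) +
      (a - (kt + 1 : ℕ)) * (x n - x (n - M)) + Bv)) δ) ∧
    (∀ l, kt + 1 < l → l ≤ K + 2 → F1x S (x (n - M)) Qp (qu m c r b sn l
      ((a - l) * (x (n - M) - b) + (a - (kt + 1 : ℕ)) * (x n - x (n - M)) + Bv + s)) δ) ∧
    (∀ l, kt + 1 < l → l ≤ K + 2 → F1x S (x (n - M)) Qp (qn m c r b sn γ l
      ((a - l) * (x (n - M) - b) + (a - (kt + 1 : ℕ)) * (x n - x (n - M)) + Bv)) δ) := by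
  have hu0 := B.u0
  have hηu : 0 ≤ η * u := by positivity
  have hm : n - M ≤ N := (Nat.sub_le _ _).trans hnN
  have ea : a - (kt + 1 : ℕ) = 0 := by
    rw [ha]
    push_cast
    ring
  rw [ea, zero_mul]
  have hwt : x n - x (n - M) = M * u := by
    rw [B.df (Nat.sub_le _ _) hnN, Nat.sub_sub_self hn]
  have hx0 : x 0 ≤ x (n - M) := B.mn (Nat.zero_le _) hm
  have lo : ∀ l : ℕ, l < kt + 1 → (a - l) * (x (n - M) - b) + 0 + Bv + s ≤
      (a - l) * (x n - b) := by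
    intro l hl
    have h1 : (l : ℝ) ≤ kt := by exact_mod_cast Nat.lt_succ_iff.1 hl
    have h2 : (a - l) * (x n - b) = (a - l) * (x (n - M) - b) + (a - l) * (x n - x (n - M)) := by
      ring
    have h3 : 1 * (x n - x (n - M)) ≤ (a - l) * (x n - x (n - M)) :=
      mul_le_mul_of_nonneg_right (by linarith) (by rw [hwt]; positivity)
    rw [hwt] at h3
    rw [h2, hwt]
    linarith
  have hi : ∀ l : ℕ, kt + 1 < l → (a - l) * (x (n - M) - b) + 0 + Bv + s ≤ 0 := by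
    intro l hl
    have h1 : (kt : ℝ) + 2 ≤ l := by exact_mod_cast hl
    have h5 : 0 ≤ x (n - M) - b := by linarith [B.s0]
    have h2 : (a - l) * (x (n - M) - b) ≤ (-1) * (x (n - M) - b) :=
      mul_le_mul_of_nonneg_right (by linarith) h5
    linarith
  have lt1 : η * u < δ := by linarith
  refine ⟨fun l hlK hl => ?_, fun l hlK hl => ?_, fun l hl hlK => ?_, fun l hl hlK => ?_⟩
  · rcases Nat.lt_or_gt_of_ne hl with h | h
    · exact (B.nu n hnN l hlK _ (lo l h)).x lt1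
    · exact (B.zu n hnN l hlK _ (hi l h)).x lt1
  · rcases Nat.lt_or_gt_of_ne hl with h | h
    · exact (B.nn n hnN l hlK _ (by linarith [lo l h, B.s0])).x lt1
    · exact (B.zn n hnN l hlK _ (by linarith [hi l h, B.s0])).x lt1
  · exact (B.zu _ hm l hlK _ (hi l hl)).x lt1
  · exact (B.zn _ hm l hlK _ (by linarith [hi l hl, B.s0])).x lt1

/-- The order `kt + 1 = a`: the natural digits. -/
theorem top_nat (B : BoxD S c r K kt a b sn γ s Qp x N u η θ φ) (ha : a = (kt : ℝ) + 1)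
    (hkK : kt + 1 ≤ K + 2) {n : ℕ} (hnN : n ≤ N) {δ y : ℝ} (hδ : 2 * (η * u) < δ)
    (hη : 0 ≤ η) :
    F1x S (x n) Qp (qu m c r b sn (kt + 1) ((a - (kt + 1 : ℕ)) * y + s)) δ ∧
    F1x S (x n) Qp (qn m c r b sn γ (kt + 1) ((a - (kt + 1 : ℕ)) * y)) δ := by
  obtain ⟨C₀, htm⟩ := B.tm
  have hu0 := B.u0
  have hηu : 0 ≤ η * u := by positivity
  have hl2 : Real.log 2 ≤ 1 := by
    have := Real.log_two_lt_d9
    linarith
  have hslog : s * Real.log 2 ≤ η * u := by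
    have := mul_le_mul B.s1 hl2 (Real.log_nonneg one_le_two) hηu
    linarith
  have ea : a - (kt + 1 : ℕ) = 0 := by
    rw [ha]
    push_cast
    ring
  rw [ea, zero_mul]
  refine ⟨?_, (B.zn n hnN (kt + 1) hkK 0 le_rfl).x (by linarith)⟩
  exact ((B.zu n hnN (kt + 1) hkK 0 le_rfl).dg htm (g' := s) (c' := 2 * (η * u)) (by linarith)
    B.s0 (by linarith) : Fcx S (x n) Qp (qu m c r b sn (kt + 1) (0 + s)) _).x hδ

end

/-- **The order of the slope is dead**: the jets of both places have few bits. -/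
theorem top_dead {K kt m0 E M0 : ℕ} {a CF εt εh : ℝ} {dt dh : ℝ → ℝ} (ha : a = (kt : ℝ) + 1)
    (hkK : kt + 1 ≤ K + 2) (hE : 1 ≤ E) (hCF : 0 < CF) (hεt : 0 < εt) (hεt1 : εt ≤ 1)
    (hεh1 : εh ≤ 1) (hM0 : CF + 1 ≤ M0)
    (hm : a * (m0 + 1) ≤ εh * (εt * CF)) (hdt : ∀ al : ℝ, 0 < al → 0 < dt al)
    (hdh : ∀ al : ℝ, 0 < al → 0 < dh al) (T : ℝ) (hT : 0 < T) :
    ∃ tol : ℝ, 0 < tol ∧
    ∀ {m : ℕ} {S : PCl m} {c : ℕ → Fin m} {r : ℕ} {b : ℝ} {sn : ℕ → ℝ → ℝ} {γ s : ℝ}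
    {U : Type} {Qp : Qt m U} {x : ℕ → ℝ} {N : ℕ} {u η : ℝ} {θ : ℕ → ℕ → ℕ → ℝ} {φ : ℕ → ℝ},
    BoxA E M0 CF εt εh dt dh S c r K kt a b sn γ s Qp x N u η θ φ → 0 ≤ η → η ≤ tol →
    ∀ n, M0 * E ≤ n → n ≤ N →
      Fcx S (x n) Qp (qu m c r b sn (kt + 1) ((a - (kt + 1 : ℕ)) * (x n - b) +
        a * (m0 + 1) * (E * u) + s)) (T * u) ∧
      Fcx S (x n) Qp (qn m c r b sn γ (kt + 1) ((a - (kt + 1 : ℕ)) * (x n - b) +
        a * (m0 + 1) * (E * u))) (T * u) := by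
  have hk0 : (0 : ℝ) ≤ kt := Nat.cast_nonneg _
  have ha0 : 0 < a := by linarith
  have hE1 : (1 : ℝ) ≤ E := by exact_mod_cast hE
  obtain ⟨QF, hQF⟩ : ∃ QF, QF = CF * E / a := ⟨_, rfl⟩
  have hQF0 : 0 < QF := by
    rw [hQF]
    positivity
  obtain ⟨QS, hQS⟩ : ∃ QS, QS = εt * QF := ⟨_, rfl⟩
  have hQS0 : 0 < QS := by
    rw [hQS]
    positivity
  obtain ⟨al₂, hal₂⟩ : ∃ al₂, al₂ = T / (4 * QS) := ⟨_, rfl⟩
  have hal₂0 : 0 < al₂ := by
    rw [hal₂]
    positivity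
  have halQ₂ : al₂ * QS = T / 4 := by
    rw [hal₂]
    field_simp
  have hd₂ := hdh al₂ hal₂0
  obtain ⟨δ₂, hδ₂⟩ : ∃ δ₂, δ₂ = dh al₂ := ⟨_, rfl⟩
  rw [← hδ₂] at hd₂
  obtain ⟨T', hT'0, hT'1, hT'2⟩ : ∃ T' : ℝ, 0 < T' ∧ T' ≤ T / 4 ∧ T' ≤ δ₂ * QS / 32 :=
    ⟨min (T / 4) (δ₂ * QS / 32), by positivity, min_le_left _ _, min_le_right _ _⟩
  obtain ⟨al₁, hal₁⟩ : ∃ al₁, al₁ = T' / (2 * QF) := ⟨_, rfl⟩
  have hal₁0 : 0 < al₁ := by
    rw [hal₁]
    positivity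
  have halQ₁ : al₁ * QF = T' / 2 := by
    rw [hal₁]
    field_simp
  have hd₁ := hdt al₁ hal₁0
  obtain ⟨δ₁, hδ₁⟩ : ∃ δ₁, δ₁ = dt al₁ := ⟨_, rfl⟩
  rw [← hδ₁] at hd₁
  refine ⟨min (T' / 4) (min (δ₁ * QF / 32) (min (δ₂ * QS / 32) 1)), by positivity, ?_⟩
  intro m S c r b sn γ s U Qp x N u η θ φ B hη0 hη n hn hnN
  have g1 : η ≤ T' / 4 := hη.trans (min_le_left _ _)
  have g2 : η ≤ δ₁ * QF / 32 := hη.trans ((min_le_right _ _).trans (min_le_left _ _))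
  have g3 : η ≤ δ₂ * QS / 32 := hη.trans ((min_le_right _ _).trans ((min_le_right _ _).trans
    (min_le_left _ _)))
  have g4 : η ≤ 1 := hη.trans ((min_le_right _ _).trans ((min_le_right _ _).trans
    (min_le_right _ _)))
  obtain ⟨C₀, htm⟩ := B.tm
  have hu0 := B.u0
  have hηu : 0 ≤ η * u := by positivity
  have hEu : u ≤ E * u := le_mul_of_one_le_left hu0.le hE1
  have hEu0 : 0 < (E : ℝ) * u := by positivity
  have ea : a - (kt + 1 : ℕ) = 0 := by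
    rw [ha]
    push_cast
    ring
  -- the digits
  obtain ⟨D, hDe⟩ : ∃ D, D = CF * (E * u) := ⟨_, rfl⟩
  have hD0 : 0 < D := by
    rw [hDe]
    positivity
  have hDa : D / a = QF * u := by
    rw [hDe, hQF]
    ring
  have hSa : εt * D / a = QS * u := by
    rw [hQS, mul_assoc, ← hDa, mul_div_assoc]
  have haD : a * (QF * u) = D := by
    rw [← hDa]
    field_simp
  have haS : a * (QS * u) = εt * D := by
    rw [← hSa]
    field_simp
  have hSD : εt * D ≤ D := mul_le_of_le_one_left hD0.le hεt1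
  have hS0 : 0 < εt * D := by positivity
  have h2S : εh * (εt * D) ≤ εt * D := mul_le_of_le_one_left hS0.le hεh1
  have hsη : s ≤ E * u := B.s1.trans ((mul_le_of_le_one_left hu0.le g4).trans hEu)
  have hDM : D + s ≤ ((M0 * E : ℕ) : ℝ) * u := by
    have h1 : (CF + 1) * (E * u) ≤ M0 * (E * u) := mul_le_mul_of_nonneg_right hM0 hEu0.le
    have h2 : ((M0 * E : ℕ) : ℝ) * u = M0 * (E * u) := by
      push_cast
      ring
    rw [h2, hDe]
    linarith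
  have hdp : D + s ≤ x 0 - b := by
    rw [hDe]
    exact B.dp
  have hnat : a * (m0 + 1) * (E * u) ≤ εh * (εt * D) := by
    have h1 := mul_le_mul_of_nonneg_right hm hEu0.le
    have h2 : εh * (εt * D) = εh * (εt * CF) * (E * u) := by
      rw [hDe]
      ring
    rw [h2]
    exact h1
  -- the small numbers
  have r1 : η * u ≤ T' / 4 * u := mul_le_mul_of_nonneg_right g1 hu0.le
  have r2 : η * u ≤ δ₁ * (QF * u) / 32 := by
    have h1 := mul_le_mul_of_nonneg_right g2 hu0.le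
    have h2 : δ₁ * QF / 32 * u = δ₁ * (QF * u) / 32 := by ring
    linarith
  have r3 : η * u ≤ δ₂ * (QS * u) / 32 := by
    have h1 := mul_le_mul_of_nonneg_right g3 hu0.le
    have h2 : δ₂ * QS / 32 * u = δ₂ * (QS * u) / 32 := by ring
    linarith
  have p1 : 0 < δ₁ * (QF * u) := by positivity
  have p2 : 0 < δ₂ * (QS * u) := by positivity
  have hT'u : 0 < T' * u := by positivity
  have q1 : T' * u ≤ T / 4 * u := mul_le_mul_of_nonneg_right hT'1 hu0.le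
  have q2 : T' * u ≤ δ₂ * (QS * u) / 32 := by
    have h1 := mul_le_mul_of_nonneg_right hT'2 hu0.le
    have h2 : δ₂ * QS / 32 * u = δ₂ * (QS * u) / 32 := by ring
    linarith
  -- the place `c r`
  obtain ⟨ψ₁, f1, a1⟩ := B.n1 n hnN
  rw [← hDe] at f1 a1
  have hψ₁ : ψ₁ < T' * u := by
    by_contra hcon
    rw [not_lt] at hcon
    have hB := B.tie n hn hnN al₁ hal₁0
    rw [← hDe, hDa, ← hδ₁] at hB
    obtain ⟨c1, c2, c3, c4⟩ := top_fc B.toBoxD ha (δ := δ₁ * (QF * u) / 8) hD0.le hDM hdp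
      (le_of_eq haD) hn hnN (by linarith) hη0
    obtain ⟨d1, d2⟩ := top_nat B.toBoxD ha hkK hnN (y := x n - b) (δ := δ₁ * (QF * u) / 8)
      (by linarith) hη0
    refine hB (fun l hl hlj => (c1 l hl hlj).mono (by linarith)) (d1.mono (by linarith))
      (fun l hl hlj => (c2 l hl hlj).mono (by linarith)) (d2.mono (by linarith))
      (fun l hl hlK => c3 l hl hlK) (fun l hl hlK => c4 l hl hlK) ?_ ?_
    · have h1 := B.ipF (n - M0 * E) n (Nat.sub_le _ _) hnN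
      rw [← hDe] at h1
      rw [ea, zero_mul, zero_add, haD]
      exact h1.mono (by linarith)
    · rw [ea, zero_mul, zero_add, haD, add_comm s]
      refine a1.mono ?_
      have h1 : al₁ * (QF * u) = T' / 2 * u := by
        rw [← mul_assoc, halQ₁]
      rw [h1]
      linarith
  -- both places
  obtain ⟨ψ₂, f2, a2⟩ := B.n2 n hnN
  rw [← hDe] at f2 a2
  have hψ₂ : ψ₂ < T * u := by
    by_contra hcon
    rw [not_lt] at hcon
    have hB := B.hop n hn hnN al₂ hal₂0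
    rw [← hDe, hSa, ← hδ₂] at hB
    obtain ⟨c1, c2, -, c4⟩ := top_fc B.toBoxD ha (δ := δ₂ * (QS * u) / 8) hD0.le hDM hdp
      (Bv := a * (QS * u)) (by rw [haS]; exact hSD) hn hnN (by linarith) hη0
    obtain ⟨-, d2⟩ := top_nat B.toBoxD ha hkK hnN (y := x n - b) (δ := δ₂ * (QS * u) / 8)
      (by linarith) hη0
    obtain ⟨d3, -⟩ := top_nat B.toBoxD ha hkK (n := n - M0 * E) ((Nat.sub_le _ _).trans hnN)
      (y := x n - b) (δ := δ₂ * (QS * u) / 8) (by linarith) hη0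
    have k1 : F1x S (x n) Qp (qu m c r b sn (kt + 1) ((a - (kt + 1 : ℕ)) * (x n - b) +
        a * (QS * u) + s)) (δ₂ * (QS * u) / 8) := by
      rw [ea, zero_mul, zero_add, haS]
      exact f1.x (by linarith)
    refine hB (fun l hl => ?_) (fun l hl hlj => (c2 l hl hlj).mono (by linarith))
      (d2.mono (by linarith)) (fun l hl hlK => c4 l hl hlK) ?_ k1 d3 ?_
    · by_cases hlj : l = kt + 1
      · subst hlj
        rw [ea, zero_mul, zero_mul, zero_add, zero_add, haS]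
        exact f1.x (by linarith)
      · exact (c1 l hl hlj).mono (by linarith)
    · have h1 := B.ipS (n - M0 * E) n (Nat.sub_le _ _) hnN
      rw [← hDe] at h1
      rw [ea, zero_mul, zero_add, haS]
      exact h1.mono (by linarith)
    · rw [ea, zero_mul, zero_add, haS]
      have h1 : F1x S (x n) Qp (qu m c r b sn (kt + 1) (εh * (εt * D) + s)) (T' * u) :=
        (f1.dg htm (g' := 0) (c' := ψ₁) (by linarith) le_rfl (by linarith) :
          Fcx S (x n) Qp (qu m c r b sn (kt + 1) (εh * (εt * D) + s)) ψ₁).x hψ₁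
      refine (a2.snd htm h1 (B.exu _ hkK _)).mono ?_
      have h2 : al₂ * (QS * u) = T / 4 * u := by
        rw [← mul_assoc, halQ₂]
      rw [h2]
      have h3 : 0 < T * u := by positivity
      linarith
  rw [ea, zero_mul, zero_add]
  refine ⟨?_, ?_⟩
  · exact f1.dg htm (g' := 0) (by linarith) le_rfl (by linarith)
  · have h1 : Fcx S (x n) Qp (qn m c r b sn γ (kt + 1) (εh * (εt * D))) ψ₂ :=
      fewC_snd (S := S) (f := fun J F => ptr F J) (g := vg (x n)) (y := fun _ F => F.T) htm f2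
        (B.exu _ hkK _)
    exact h1.dg htm (g' := 0) (by linarith) le_rfl (by linarith)

/-- **The hops at the later windows**, integer slope. -/
theorem BoxA.toH {K kt m0 E M0 k i : ℕ} {a CF εt εh : ℝ} {dt dh : ℝ → ℝ} {εh' : ℕ → ℝ}
    {dh' : ℕ → ℝ → ℝ} {m : ℕ} {S : PCl m} {c : ℕ → Fin m} {r : ℕ} {b : ℝ} {sn : ℕ → ℝ → ℝ}
    {γ s : ℝ} {U : Type} {Qp : Qt m U} {x : ℕ → ℝ} {N : ℕ} {u η η' T : ℝ}
    {θ : ℕ → ℕ → ℕ → ℝ} {φ : ℕ → ℝ}
    (B : BoxA E M0 CF εt εh dt dh S c r K kt a b sn γ s Qp x N u η θ φ)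
    (H : kt + 1 ≤ K + 2 → ∀ n, M0 * E ≤ n → n ≤ N →
      Fcx S (x n) Qp (qu m c r b sn (kt + 1) ((a - (kt + 1 : ℕ)) * (x n - b) +
        a * (m0 + 1) * (E * u) + s)) (T * u) ∧
      Fcx S (x n) Qp (qn m c r b sn γ (kt + 1) ((a - (kt + 1 : ℕ)) * (x n - b) +
        a * (m0 + 1) * (E * u))) (T * u))
    (hk : M0 * E ≤ k) (hkN : k ≤ N) (h1 : η ≤ η') (h2 : T ≤ η')
    (deep : a * (m0 + 1) * (E * u) + s ≤ x k - b) (sm : ∀ l, i < l → l ≤ kt → φ l ≤ η')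
    (hop : ∀ j, i < j → j ≤ kt → ∀ n, k + m0 * E ≤ n → n + E ≤ N → ∀ al : ℝ, 0 < al →
      HopB S c r K a b sn γ s Qp j (x (n - m0 * E)) (x n) (a * ((a - j) * (E * u) / a)) (εh' j)
        ((a - j) * (E * u) / a) al (dh' j al)) :
    BoxH m0 E i εh' dh' S c r K kt a b sn γ s Qp (fun n => x (n + k)) (N - k) u η'
      (fun l i j => θ l (i + k) (j + k)) φ := by
  have hu0 := B.u0
  have B' := (B.toBoxD.le h1).shift hkN
  refine ⟨B', ?_, fun hK n hn => ?_, fun hK n hn => ?_, sm, fun j hj hj' n hn hn' al hal => ?_⟩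
  · show a * (m0 + 1) * (E * u) + s ≤ x (0 + k) - b
    rw [Nat.zero_add]
    exact deep
  · exact (H hK (n + k) (by omega) (by omega)).1.mono (mul_le_mul_of_nonneg_right h2 hu0.le)
  · exact (H hK (n + k) (by omega) (by omega)).2.mono (mul_le_mul_of_nonneg_right h2 hu0.le)
  · have h3 := hop j hj hj' (n + k) (by omega) (by omega) al hal
    have e1 : n + k - m0 * E = n - m0 * E + k := by omega
    rw [e1] at h3
    exact h3

/-- **The hops**, the slope smaller than `kt + 1`. -/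
theorem boxH_of_lt {K kt m0 E i : ℕ} {a : ℝ} {εh : ℕ → ℝ}
    {dh : ℕ → ℝ → ℝ} {m : ℕ} {S : PCl m} {c : ℕ → Fin m} {r : ℕ} {b : ℝ} {sn : ℕ → ℝ → ℝ}
    {γ s : ℝ} {U : Type} {Qp : Qt m U} {x : ℕ → ℝ} {N : ℕ} {u η : ℝ}
    {θ : ℕ → ℕ → ℕ → ℝ} {φ : ℕ → ℝ} (hka : a ≤ kt + 1)
    (B : BoxD S c r K kt a b sn γ s Qp x N u η θ φ)
    (deep : a * (m0 + 1) * (E * u) + s ≤ x 0 - b)
    (deep' : a * (m0 + 1) * (E * u) + s ≤ ((kt : ℝ) + 1 - a) * (x 0 - b))
    (sm : ∀ l, i < l → l ≤ kt → φ l ≤ η)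
    (hop : ∀ j, i < j → j ≤ kt → ∀ n, m0 * E ≤ n → n + E ≤ N → ∀ al : ℝ, 0 < al →
      HopB S c r K a b sn γ s Qp j (x (n - m0 * E)) (x n) (a * ((a - j) * (E * u) / a)) (εh j)
        ((a - j) * (E * u) / a) al (dh j al)) :
    BoxH m0 E i εh dh S c r K kt a b sn γ s Qp x N u η θ φ := by
  have hu0 := B.u0
  have key : ∀ n ≤ N, (a - (kt + 1 : ℕ)) * (x n - b) + a * (m0 + 1) * (E * u) + s ≤ 0 := by
    intro n hn
    have h1 := B.mn (Nat.zero_le n) hn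
    have h2 : ((kt : ℝ) + 1 - a) * (x 0 - b) ≤ ((kt : ℝ) + 1 - a) * (x n - b) :=
      mul_le_mul_of_nonneg_left (by linarith) (by linarith)
    have h3 : (a - (kt + 1 : ℕ)) * (x n - b) = -(((kt : ℝ) + 1 - a) * (x n - b)) := by
      push_cast
      ring
    rw [h3]
    linarith
  exact ⟨B, deep, fun hK n hn => B.zu n hn _ hK _ (key n hn),
    fun hK n hn => B.zn n hn _ hK _ (by linarith [key n hn, B.s0]), sm, hop⟩

end Pool.AB63
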